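import Pool.Agent.MP_07c133_an.Proofs

set_option autoImplicit false

open scoped NNReal
open Pool.Agent.MP_07c133_an

/-- Negative answer to Q1: there is a Köthe algebra that is approximately contractible but not
nuclear. -/
theorem Pool.Agent.Results.MP_07c133_an.NonNuclear.result.{u} :
    ∃ (I : Type) (P : Set (I → ℝ≥0)) (_ : IsKotheSet P) (h : IsKotheAlgebra P),
      ApproxContractible.{u} (KotheAlgebra P h) ∧ ¬ IsNuclearSpace (KotheAlgebra P h) :=
  ⟨Idx, PP, isKotheSet, isKotheAlgebra, approxContractible, not_nuclear⟩
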